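import Pool.Agent.R736.HL.Main

set_option autoImplicit false

/-! Definitions for harmonic labelings of `G × ℤ`, `G` an infinite connected locally finite graph. -/

namespace Pool.Agent.H222HL

open Pool.Agent.R736.HL

/-- positive definite sequences -/
def PD (q : ℤ → ℝ) : Prop :=
  ∀ (ι : Type) [Fintype ι] (a : ι → ℤ) (c : ι → ℝ), 0 ≤ ∑ i, ∑ j, c i * c j * q (a i - a j)

variable {V : Type*} (G : SimpleGraph V) [G.LocallyFinite]

/-- `φ` is harmonic on `G × ℤ` at all sites `(x, n)` with `x ∈ B` -/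
def HarmOn (B : Set V) (φ : V → ℤ → ℝ) : Prop :=
  ∀ x ∈ B, ∀ n : ℤ, φ x (n + 1) + φ x (n - 1) =
    ((G.degree x : ℝ) + 2) * φ x n - ∑ y ∈ G.neighborFinset x, φ y n

/-- the kernel multiplied by the signs `χ` -/
noncomputable def kk (χ : V → ℤ) (n : ℤ) (v x : V) : ℤ := χ v * χ x * KZ G n v x

end Pool.Agent.H222HL
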